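import Mathlib
import Pool.Agent.Lib_helper90.FS.Defs
import Pool.Agent.Lib_helper90.FR.Core
import Pool.Agent.Lib_helper90.FR.Final

set_option autoImplicit false

/-! # Block BA (helper98): the rows at level one -/

namespace Pool.Agent.H90.FS

universe u

open AddMonoidAlgebra Pool.Agent.H90.FR

/-- the zero set of a nice function is the rational derived subgroup -/
private theorem BA_ker {V : Type u} [Group V] {τ : V → ℚ} (h : Nice τ) (a : V) :
    τ a = 0 ↔ a ∈ ratDer V := by
  constructor
  · intro h0
    by_contra hc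
    obtain ⟨φ, hφ, hφ0⟩ := functional a hc
    obtain ⟨w, hw⟩ := h.univ (ULift.{u} ℚ) (fun x => ULift.up (φ x))
      (fun x y => by rw [hφ]; rfl)
    apply hφ0
    have h1 := hw a
    rw [h0, zero_smul] at h1
    exact congrArg ULift.down h1
  · intro ha
    let T : V →* Multiplicative ℚ :=
      { toFun := fun x => Multiplicative.ofAdd (τ x)
        map_one' := by
          have := h.add 1 1
          rw [mul_one] at this
          have h0 : τ 1 = 0 := by linarith
          rw [h0]
          rfl
        map_mul' := fun x y => by rw [h.add]; rfl }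
    obtain ⟨n, hn, hx⟩ := (mem_ratDer_iff a).1 ha
    have hcom : ⁅(⊤ : Subgroup V), ⊤⁆ ≤ T.ker := by
      rw [Subgroup.commutator_le]
      intro x _ y _
      rw [MonoidHom.mem_ker, map_commutatorElement, commutatorElement_eq_one_iff_mul_comm,
        mul_comm]
    have h2 : T (a ^ n) = 1 := hcom hx
    rw [map_pow] at h2
    have h3 : (n : ℚ) * τ a = 0 := by
      have := congrArg Multiplicative.toAdd h2
      rw [toAdd_pow, toAdd_one] at this
      change n • τ a = 0 at this
      rwa [nsmul_eq_mul] at this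
    rcases mul_eq_zero.1 h3 with h4 | h4
    · have : n = 0 := by exact_mod_cast h4
      omega
    · exact h4


private theorem BA_z {V : Type u} [Group V] {τ : V → ℚ} (h : Nice τ) (a : V) (ha : a ≠ 1) :
    a ∉ ratDer2 V := by
  intro h2
  apply ha
  let T : V →* Multiplicative ℚ :=
    { toFun := fun x => Multiplicative.ofAdd (τ x)
      map_one' := by
        have := h.add 1 1
        rw [mul_one] at this
        have h0 : τ 1 = 0 := by linarith
        rw [h0]
        rfl
      map_mul' := fun x y => by rw [h.add]; rfl }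
  have hT : ∀ x, x ∈ T.ker ↔ τ x = 0 := fun x => by
    rw [MonoidHom.mem_ker]
    exact Iff.rfl
  refine eq_one_of_mem_ratDer2 T.ker ?_ ?_ ?_ ?_ a h2
  · intro x y
    rw [MonoidHom.mem_ker, map_mul, map_mul, map_mul, map_inv, map_inv, mul_comm (T x) (T y)]
    group
  · intro x hx y hy
    exact h.comm x y ((hT x).1 hx) ((hT y).1 hy)
  · intro x hx k hk
    exact h.tf x k ((hT x).1 hx) hk
  · intro x k hk hx
    rw [MonoidHom.mem_ker, map_pow] at hx
    rw [hT]
    have h3 : (k : ℚ) * τ x = 0 := by
      have := congrArg Multiplicative.toAdd hx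
      rw [toAdd_pow, toAdd_one] at this
      change k • τ x = 0 at this
      rwa [nsmul_eq_mul] at this
    rcases mul_eq_zero.1 h3 with h4 | h4
    · have : k = 0 := by exact_mod_cast h4
      omega
    · exact h4

/-- BLOCK BA. The rows at level one: combine `FR.crossed`, `FR.field_family`, `FR.chain_hyp`,
`FR.chain`. -/
theorem base_rows {ι : Type} [Fintype ι] [DecidableEq ι] {A : ι → Type u} [∀ i, Group (A i)]
    (τ : ∀ i, A i → ℚ) (hA : ∀ i, Nice (τ i)) {Γ : Type u} [AddCommGroup Γ] [Module ℚ Γ]
    (v : ι → Γ) (θ : Monoid.CoprodI A →* Multiplicative Γ)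
    (hθ : ∀ i (a : A i), θ (Monoid.CoprodI.of a) = Multiplicative.ofAdd (τ i a • v i))
    (U : Finset ι) (hU : LinearIndependent ℚ fun i : U => v i) (z : ∀ i, A i)
    (hz : ∀ i ∈ U, z i ≠ 1 ∧ τ i (z i) = 0) :
    ∃ (κ : Type u) (_ : Field κ) (_ : CharZero κ), ∀ (m : ℕ) (r : Fin m → Monoid.CoprodI A)
      (c : ι → Fin m → MonoidAlgebra κ (Multiplicative Γ)),
      (∀ i ∈ U, Rel r θ (Monoid.CoprodI.of (z i)) (c i)) → Indep fun i : U => c i := by
  classical
  let Q : ι → Type u := fun _ => ULift.{u} ℚ
  let α : ∀ i, A i → Q i := fun i a => ULift.up (τ i a)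
  have hα : ∀ i a b, α i (a * b) = α i a + α i b := fun i a b => by
    change ULift.up (τ i (a * b)) = ULift.up (τ i a) + ULift.up (τ i b)
    rw [(hA i).add]
    rfl
  have hk : ∀ i a, α i a = 0 ↔ a ∈ ratDer (A i) := fun i a => by
    rw [← BA_ker (hA i)]
    constructor
    · intro h
      exact congrArg ULift.down h
    · intro h
      change ULift.up (τ i a) = ULift.up 0
      rw [h]
  -- crossed maps
  have hδ : ∀ i : ι, ∃ δ : A i → Q i → ℚ, i ∈ U →
      (∀ a b q, δ (a * b) q = δ a q + δ b (q - α i a)) ∧ δ (z i) ≠ 0 := by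
    intro i
    by_cases hi : i ∈ U
    · obtain ⟨δ, h1, h2⟩ := crossed (α i) (hα i) (hk i) (z i)
        ((BA_ker (hA i) _).1 (hz i hi).2) (BA_z (hA i) _ (hz i hi).1)
      exact ⟨δ, fun _ => ⟨h1, h2⟩⟩
    · exact ⟨fun _ _ => 0, fun h => absurd h hi⟩
  choose δ hδ using hδ
  obtain ⟨κ, hF, hAlg, χ, ψ, hψ⟩ := field_family (Q := Q)
    (fun i => if i ∈ U then δ i (z i) else fun _ => 1) (fun i => by
      by_cases hi : i ∈ U
      · simp only [if_pos hi]
        exact (hδ i hi).2
      · simp only [if_neg hi]
        intro h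
        exact one_ne_zero (congrFun h 0))
  have hchar : CharZero κ := algebraRat.charZero κ
  refine ⟨κ, hF, hchar, ?_⟩
  intro m r c hc
  -- the coordinates
  have hinj : LinearMap.ker (Finsupp.linearCombination ℚ fun i : U => v i) = ⊥ :=
    LinearMap.ker_eq_bot.2 hU
  obtain ⟨g, hg⟩ := LinearMap.exists_leftInverse_of_injective _ hinj
  let te : ∀ i, Q i →+ Γ := fun i =>
    { toFun := fun q => q.down • v i
      map_zero' := zero_smul ℚ _
      map_add' := fun a b => add_smul _ _ _ }
  let p : ∀ i, Γ →+ Q i := fun i =>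
    { toFun := fun γ => if hi : i ∈ U then ULift.up (g γ ⟨i, hi⟩) else 0
      map_zero' := by
        by_cases hi : i ∈ U
        · simp only [dif_pos hi, map_zero]
          rfl
        · simp only [dif_neg hi]
      map_add' := fun a b => by
        by_cases hi : i ∈ U
        · simp only [dif_pos hi, map_add]
          rfl
        · simp only [dif_neg hi, add_zero] }
  have hgv : ∀ (j : ι) (hj : j ∈ U), g (v j) = Finsupp.single ⟨j, hj⟩ 1 := by
    intro j hj
    have h1 := LinearMap.congr_fun hg (Finsupp.single ⟨j, hj⟩ 1)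
    rw [LinearMap.comp_apply, Finsupp.linearCombination_single, one_smul] at h1
    exact h1
  have hpk : ∀ k ∈ U, ∀ q, p k (te k q) = q := by
    intro k hkU q
    change (if hi : k ∈ U then ULift.up (g (q.down • v k) ⟨k, hi⟩) else 0) = q
    rw [dif_pos hkU, map_smul, hgv k hkU, Finsupp.smul_apply, Finsupp.single_eq_same, smul_eq_mul,
      mul_one]
  have hpi : ∀ i ∈ U, ∀ j ∈ U, i ≠ j → ∀ q, p i (te j q) = 0 := by
    intro i hi j hj hij q
    change (if hi : i ∈ U then ULift.up (g (q.down • v j) ⟨i, hi⟩) else 0) = 0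
    rw [dif_pos hi, map_smul, hgv j hj, Finsupp.smul_apply, Finsupp.single_eq_of_ne, smul_zero]
    · rfl
    · intro h
      exact hij (congrArg Subtype.val h)
  -- the coefficients over the additive version
  let E : MonoidAlgebra κ (Multiplicative Γ) ≃ₐ[κ] κ[Γ] :=
    (AddMonoidAlgebra.toMultiplicativeAlgEquiv κ κ Γ).symm
  have hE : ∀ x : Multiplicative Γ, E (MonoidAlgebra.of κ _ x) =
      single (Multiplicative.toAdd x) 1 := by
    intro x
    change (AddMonoidAlgebra.toMultiplicativeAlgEquiv κ κ Γ).symm _ = _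
    rw [AlgEquiv.symm_apply_eq, AddMonoidAlgebra.toMultiplicativeAlgEquiv_single]
    rfl
  let c' : ι → Fin m → κ[Γ] := fun i l => if i ∈ U then E (c i l) else 0
  let a' : ∀ i, A i := fun i => if i ∈ U then z i else 1
  have hc' : ∀ i, ∀ (M : Type u) [AddCommGroup M] [Module κ M] (act : κ[Γ] →ₐ[κ] Module.End κ M)
      (δ : Monoid.CoprodI A → M),
      (∀ x y, δ (x * y) = δ x + act (single (Multiplicative.toAdd (θ x)) 1) (δ y)) →
      δ (Monoid.CoprodI.of (a' i)) = ∑ l, act (c' i l) (δ (r l)) := by
    intro i M _ _ act d hd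
    by_cases hi : i ∈ U
    · have h1 := hc i hi M (act.comp (E : MonoidAlgebra κ (Multiplicative Γ) →ₐ[κ] κ[Γ])) d
        (fun x y => by
          rw [hd]
          congr 1
          change _ = act (E (MonoidAlgebra.of κ _ (θ x))) (d y)
          rw [hE])
      change d (Monoid.CoprodI.of (if i ∈ U then z i else 1)) =
        ∑ l, act (if i ∈ U then E (c i l) else 0) (d (r l))
      simp only [if_pos hi]
      exact h1
    · change d (Monoid.CoprodI.of (if i ∈ U then z i else 1)) =
        ∑ l, act (if i ∈ U then E (c i l) else 0) (d (r l))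
      simp only [if_neg hi, map_zero, LinearMap.zero_apply, Finset.sum_const_zero]
      rw [map_one]
      have h1 := hd 1 1
      rw [map_one] at h1
      have h2 : act (single (Multiplicative.toAdd (1 : Multiplicative Γ)) 1) = 1 := by
        rw [toAdd_one]
        exact map_one act
      rw [h2, mul_one, Module.End.one_apply] at h1
      exact left_eq_add.1 h1
  have hch := chain (κ := κ) Q U te p hpi χ c' (by
    intro k hkU π hπ
    obtain ⟨w, hw1, hw2⟩ := chain_hyp r te p θ α (fun i a => by rw [hθ]; rfl) c' a' hc' k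
      (hpk k hkU) (fun a q => ψ k fun x => δ k a (x + q)) (by
        intro a b q
        beta_reduce
        rw [← map_add]
        congr 1
        funext x
        rw [(hδ k hkU).1, Pi.add_apply, add_sub_assoc]) π hπ
    refine ⟨w, fun i _ hik => hw1 i hik, ?_⟩
    rw [hw2]
    funext q
    congr 1
    have h1 := hψ k (-q)
    beta_reduce at h1
    rw [if_pos hkU] at h1
    rw [← h1]
    change ψ k (fun x => δ k (if k ∈ U then z k else 1) (x + q)) = _
    rw [if_pos hkU]
    simp only [sub_neg_eq_add])
  let e : Fin U.card → ι := fun i => (U.equivFin.symm i : ι)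
  obtain ⟨f, hf⟩ := hch U.card e (fun a b h => U.equivFin.symm.injective (Subtype.ext h))
    (fun i => (U.equivFin.symm i).2) (AlgHom.id κ κ[Γ]) (fun _ _ => rfl)
  rw [AlgHom.id_apply] at hf
  intro d hd
  have h0 : (fun i : Fin U.card => E (d (U.equivFin.symm i))) = 0 := by
    apply Matrix.eq_zero_of_vecMul_eq_zero hf
    funext i'
    change ∑ i, E (d (U.equivFin.symm i)) * c' (e i) (f i') = 0
    have h1 := congrArg E (hd (f i'))
    rw [map_sum, map_zero] at h1
    rw [← h1]
    rw [← U.equivFin.symm.sum_comp]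
    refine Finset.sum_congr rfl fun i _ => ?_
    rw [map_mul]
    congr 1
    change (if (U.equivFin.symm i : ι) ∈ U then _ else _) = _
    rw [if_pos (U.equivFin.symm i).2]
  intro i
  have h2 := congrFun h0 (U.equivFin i)
  beta_reduce at h2
  rw [Equiv.symm_apply_apply] at h2
  exact (map_eq_zero_iff E E.injective).1 h2

end Pool.Agent.H90.FS
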